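import Pool.Agent.QUD.StmtsC
import Pool.Agent.Helper5_PM.M061

set_option autoImplicit false

namespace Pool.Agent.QUD.H3

open MeasureTheory Complex Filter Topology ProbabilityTheory Pool.Agent.H16Iso Pool.Agent.H62T
open Pool.Agent.H16F (pD)
open Pool.Agent.H60K.H25 (Hs isOpen_Hs mem_AE_iff)
open scoped ENNReal

/-- the half-plane -/
def D0 : Set ℂ := {z | ip 1 z < 0}

theorem prob_AE (hpk : Pool.Agent.H60K.HpkStatement) (a : ℝ) (ha : 0 < a) :
    (PP (Pool.Agent.H16F.H8.AE D0 1 (-(a : ℂ)))).toReal = 1 - Real.exp (-a ^ 2) := by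
  have hopen : IsOpen D0 := isOpen_Hs (fun _ => 1) (fun _ => 0) 0
  have h1 := Pool.Agent.H16F.H8.pD_diag_all hopen one_pos (-(a : ℂ))
  have hip : ip 1 (-(a : ℂ)) = -a := by simp [ip]
  have hlt : ip 1 (-(a : ℂ)) < 0 := by rw [hip]; linarith
  have h2 := hpk 1 0 1 (-(a : ℂ)) (-(a : ℂ)) (by simp) one_pos hlt hlt
  have hG0 : G 1 0 = 1 / (4 * Real.pi) := by simp [G]
  have e1 : (-(a : ℂ)) - (-(a : ℂ)) = 0 := by ring
  have e2 : (-(a : ℂ)) - (-(a : ℂ) - ((2 * (ip 1 (-(a : ℂ)) - 0) : ℝ) : ℂ) * 1)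
      = ((-(2 * a) : ℝ) : ℂ) := by
    rw [hip]
    push_cast
    ring
  have hG1 : G 1 ((-(2 * a) : ℝ) : ℂ) = 1 / (4 * Real.pi) * Real.exp (-a ^ 2) := by
    unfold G
    rw [Complex.norm_real, Real.norm_eq_abs, sq_abs]
    have e3 : -(-(2 * a)) ^ 2 / (4 * 1) = -a ^ 2 := by ring
    rw [e3]
    ring
  rw [e1, e2, hG0, hG1] at h2
  have h3 : pD D0 1 (-(a : ℂ)) (-(a : ℂ)) = pD {z | ip 1 z < 0} 1 (-(a : ℂ)) (-(a : ℂ)) := rfl
  rw [h3, h2, hG0] at h1
  have hpi : (0 : ℝ) < 1 / (4 * Real.pi) := by positivity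
  have h4 : 1 / (4 * Real.pi) * (1 - Real.exp (-a ^ 2)) =
      1 / (4 * Real.pi) * (PP (Pool.Agent.H16F.H8.AE D0 1 (-(a : ℂ)))).toReal := by
    rw [← h1]
    ring
  exact (mul_left_cancel₀ hpi.ne' h4).symm

theorem AE_iff {ω : Sp} {R : ℝ} (hR : ∀ m k, k ≤ 2 ^ m → ‖loop m ω k‖ ≤ R) (a : ℝ)
    (hne : hs ω 1 ≠ a) :
    ω ∈ Pool.Agent.H16F.H8.AE D0 1 (-(a : ℂ)) ↔ hs ω 1 < a := by
  have h := mem_AE_iff (u := fun _ => 1) (h := fun _ => 0) (t := 1) one_pos (s := 0)
    (x := -(a : ℂ)) hR (by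
      simp only [ip, Real.sqrt_one]
      intro h
      apply hne
      simp at h
      linarith)
  have hip : ip 1 (-(a : ℂ)) = -a := by simp [ip]
  simp only [Real.sqrt_one, one_mul, hip] at h
  constructor
  · intro hω
    have := h.1 hω
    linarith
  · intro hlt
    exact h.2 (by linarith)

theorem low (hpk : Pool.Agent.H60K.HpkStatement) (mom : MomStatement) (a : ℝ) (ha : 0 < a) :
    (PP {ω | hs ω 1 < a}).toReal ≤ 1 - Real.exp (-a ^ 2) := by
  rw [← prob_AE hpk a ha]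
  apply ENNReal.toReal_mono (measure_ne_top _ _)
  apply measure_mono_ae
  filter_upwards [mom.2.2.1] with ω hω
  obtain ⟨R, hR⟩ := hω
  intro h
  have h' : hs ω 1 < a := h
  exact (AE_iff hR a h'.ne).2 h'

theorem upp (hpk : Pool.Agent.H60K.HpkStatement) (mom : MomStatement) (a : ℝ) (ha : 0 < a) :
    1 - Real.exp (-a ^ 2) ≤ (PP {ω | hs ω 1 ≤ a}).toReal := by
  rw [← prob_AE hpk a ha]
  apply ENNReal.toReal_mono (measure_ne_top _ _)
  apply measure_mono_ae
  filter_upwards [mom.2.2.1] with ω hω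
  obtain ⟨R, hR⟩ := hω
  intro h
  show hs ω 1 ≤ a
  by_cases he : hs ω 1 = a
  · exact he.le
  · exact ((AE_iff hR a he).1 h).le

theorem tail (hpk : Pool.Agent.H60K.HpkStatement) (mom : MomStatement) (a : ℝ) (ha : 0 < a) :
    (PP {ω | a < hs ω 1}).toReal = Real.exp (-a ^ 2) := by
  have hmeas := mom.1 1
  have hcompl : ∀ b : ℝ, (PP {ω | b < hs ω 1}).toReal = 1 - (PP {ω | hs ω 1 ≤ b}).toReal := by
    intro b
    have h1 : {ω | b < hs ω 1} = {ω | hs ω 1 ≤ b}ᶜ := by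
      ext ω
      simp
    rw [h1, prob_compl_eq_one_sub (measurableSet_le hmeas measurable_const),
      ENNReal.toReal_sub_of_le prob_le_one ENNReal.one_ne_top, ENNReal.toReal_one]
  apply le_antisymm
  · rw [hcompl a]
    have := upp hpk mom a ha
    linarith
  · have hb : ∀ b : ℝ, a < b → Real.exp (-b ^ 2) ≤ (PP {ω | a < hs ω 1}).toReal := by
      intro b hab
      have h1 := low hpk mom b (ha.trans hab)
      have h2 : (PP {ω | hs ω 1 ≤ a}).toReal ≤ (PP {ω | hs ω 1 < b}).toReal := by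
        apply ENNReal.toReal_mono (measure_ne_top _ _)
        apply measure_mono
        intro ω hω
        exact lt_of_le_of_lt hω hab
      rw [hcompl a]
      linarith
    have hcont : Tendsto (fun b : ℝ => Real.exp (-b ^ 2)) (𝓝[>] a) (𝓝 (Real.exp (-a ^ 2))) := by
      have : Continuous fun b : ℝ => Real.exp (-b ^ 2) := by fun_prop
      exact (this.tendsto a).mono_left nhdsWithin_le_nhds
    refine le_of_tendsto hcont ?_
    filter_upwards [self_mem_nhdsWithin] with b hb'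
    exact hb b hb'

theorem ceh (hpk : Pool.Agent.H60K.HpkStatement) (mom : MomStatement) : CehStmt := by
  unfold CehStmt
  have hint : Integrable (fun ω => hs ω 1 ^ 2) PP := mom.2.2.2 1 2
  rw [hint.integral_eq_integral_meas_lt (Eventually.of_forall fun ω => by positivity)]
  have h1 : ∫ t in Set.Ioi (0 : ℝ), (PP.real {ω | t < hs ω 1 ^ 2})
      = ∫ t in Set.Ioi (0 : ℝ), Real.exp (-t) := by
    apply setIntegral_congr_fun measurableSet_Ioi
    intro t ht
    have ht' : (0 : ℝ) < t := ht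
    have h2 : {ω | t < hs ω 1 ^ 2} = {ω | Real.sqrt t < hs ω 1} := by
      ext ω
      have h0 : 0 ≤ hs ω 1 := mom.2.1 1 ω
      show t < hs ω 1 ^ 2 ↔ Real.sqrt t < hs ω 1
      constructor
      · intro h
        rw [← Real.sqrt_sq h0]
        exact Real.sqrt_lt_sqrt ht'.le h
      · intro h
        rw [← Real.sq_sqrt ht'.le]
        exact pow_lt_pow_left₀ h (Real.sqrt_nonneg t) two_ne_zero
    show (PP {ω | t < hs ω 1 ^ 2}).toReal = Real.exp (-t)
    rw [h2, tail hpk mom _ (Real.sqrt_pos.2 ht'), Real.sq_sqrt ht'.le]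
  rw [h1, integral_exp_neg_Ioi_zero]

end Pool.Agent.QUD.H3
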