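import Pool.Agent.QUD.StmtsRB

set_option autoImplicit false

namespace Pool.Agent.QUD.H3

open MeasureTheory Complex Filter Topology Pool.Agent.H16Iso Pool.Agent.H62T
open Pool.Agent.AEU Pool.Agent.XQ
open Pool.Agent.H1Gen (det CCW poly)

theorem rf_I (x : ℂ) : rf I 0 x = (starRingEnd ℂ) x := by
  unfold rf ip
  apply Complex.ext
  · simp
  · simp
    ring

theorem poly_sq (hpl : HplStmt) (h B δ ε : ℝ) (hccw : CCW (sq h B δ ε)) (hh : 0 < h) (hB : 0 < B)
    (hT : 0 < B + ε - δ) :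
    poly (sq h B δ ε) = {x | -(h / 2) < x.im ∧ x.im < h / 2 ∧ δ * (x.im + h / 2) < h * x.re ∧
      h * x.re < h * B + ε * (x.im + h / 2)} := by
  rw [hpl _ hccw]
  have d0 : ∀ x : ℂ, det (sq h B δ ε (0 + 1) - sq h B δ ε 0) (x - sq h B δ ε 0)
      = h * x.re - δ * (x.im + h / 2) := by
    intro x
    change det ((⟨0, -(h / 2)⟩ : ℂ) - ⟨δ, h / 2⟩) (x - ⟨δ, h / 2⟩) = _
    simp only [det, Complex.sub_re, Complex.sub_im]
    ring
  have d1 : ∀ x : ℂ, det (sq h B δ ε (1 + 1) - sq h B δ ε 1) (x - sq h B δ ε 1)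
      = B * (x.im + h / 2) := by
    intro x
    change det ((⟨B, -(h / 2)⟩ : ℂ) - ⟨0, -(h / 2)⟩) (x - ⟨0, -(h / 2)⟩) = _
    simp only [det, Complex.sub_re, Complex.sub_im]
    ring
  have d2 : ∀ x : ℂ, det (sq h B δ ε (2 + 1) - sq h B δ ε 2) (x - sq h B δ ε 2)
      = h * B + ε * (x.im + h / 2) - h * x.re := by
    intro x
    change det ((⟨B + ε, h / 2⟩ : ℂ) - ⟨B, -(h / 2)⟩) (x - ⟨B, -(h / 2)⟩) = _
    simp only [det, Complex.sub_re, Complex.sub_im]
    ring
  have d3 : ∀ x : ℂ, det (sq h B δ ε (3 + 1) - sq h B δ ε 3) (x - sq h B δ ε 3)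
      = (B + ε - δ) * (h / 2 - x.im) := by
    intro x
    change det ((⟨δ, h / 2⟩ : ℂ) - ⟨B + ε, h / 2⟩) (x - ⟨B + ε, h / 2⟩) = _
    simp only [det, Complex.sub_re, Complex.sub_im]
    ring
  ext x
  constructor
  · intro hx
    have h0 := hx 0
    have h1 := hx 1
    have h2 := hx 2
    have h3 := hx 3
    rw [d0] at h0
    rw [d1] at h1
    rw [d2] at h2
    rw [d3] at h3
    have h1' := (mul_pos_iff_of_pos_left hB).1 h1
    have h3' := (mul_pos_iff_of_pos_left hT).1 h3
    refine ⟨by linarith, by linarith, by linarith, by linarith⟩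
  · rintro ⟨h1, h2, h3, h4⟩ i
    fin_cases i
    · show 0 < det (sq h B δ ε (0 + 1) - sq h B δ ε 0) (x - sq h B δ ε 0)
      rw [d0]
      linarith
    · show 0 < det (sq h B δ ε (1 + 1) - sq h B δ ε 1) (x - sq h B δ ε 1)
      rw [d1]
      exact mul_pos hB (by linarith)
    · show 0 < det (sq h B δ ε (2 + 1) - sq h B δ ε 2) (x - sq h B δ ε 2)
      rw [d2]
      linarith
    · show 0 < det (sq h B δ ε (3 + 1) - sq h B δ ε 3) (x - sq h B δ ε 3)
      rw [d3]
      exact mul_pos hT (by linarith)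

theorem bdd_poly (z : Fin 4 → ℂ) : Bornology.IsBounded (poly z) := by
  unfold poly
  exact ((isBounded_convexHull.2 (Set.finite_range z).isBounded)).subset interior_subset

theorem fxs (cgr : CgrStmt) (pcg : PcgStmt) (sfo : SfoStmt) (hpl : HplStmt) (flf : FlfStmt) :
    FxsStmt := by
  intro h B δ ε hh hB hT hE hD heig
  have hT' : 0 < (B + ε) + (-ε) - δ := by linarith
  have hc1 : CCW (sq h B δ ε) := (sfo h B δ ε hh hB hT).1
  have hc2 : CCW (sq h (B + ε) δ (-ε)) := (sfo h (B + ε) δ (-ε) hh hE hT').1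
  by_cases hε : ε = 0
  · subst hε
    rw [neg_zero, add_zero]
    exact cgr.1 _
  by_cases hδ : δ = 0
  · subst hδ
    refine pcg _ _ Complex.conjLIE.toIsometryEquiv ?_
    have e1 : Set.range (sq h B 0 ε) = {⟨0, h / 2⟩, ⟨0, -(h / 2)⟩, ⟨B, -(h / 2)⟩, ⟨B + ε, h / 2⟩} := by
      unfold sq
      simp only [Matrix.range_cons, Matrix.range_empty, Set.union_empty, Set.singleton_union]
    have e2 : Set.range (sq h (B + ε) 0 (-ε)) =
        {⟨0, h / 2⟩, ⟨0, -(h / 2)⟩, ⟨B + ε, -(h / 2)⟩, ⟨B + ε + -ε, h / 2⟩} := by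
      unfold sq
      simp only [Matrix.range_cons, Matrix.range_empty, Set.union_empty, Set.singleton_union]
    rw [e1, e2]
    have hc : ∀ a b : ℝ, (Complex.conjLIE.toIsometryEquiv : ℂ → ℂ) ⟨a, b⟩ = ⟨a, -b⟩ := by
      intro a b
      exact rfl
    rw [Set.image_insert_eq, Set.image_insert_eq, Set.image_insert_eq, Set.image_singleton,
      hc, hc, hc, hc, neg_neg, add_neg_cancel_right]
    ext x
    simp only [Set.mem_insert_iff, Set.mem_singleton_iff]
    tauto
  exfalso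
  have hP1 := poly_sq hpl h B δ ε hc1 hh hB hT
  have hP2 := poly_sq hpl h (B + ε) δ (-ε) hc2 hh hE hT'
  let W : Set ℂ := {x | -(h / 2) < x.im ∧ x.im < h / 2}
  let u : ℂ := ⟨-h, δ⟩
  let v : ℂ := ⟨h, -ε⟩
  have hu : ∀ x : ℂ, ip u x < -(h * δ / 2) ↔ δ * (x.im + h / 2) < h * x.re := by
    intro x
    simp only [ip, u]
    constructor <;> intro h' <;> linarith
  have hv : ∀ x : ℂ, ip v x < h * B + ε * h / 2 ↔ h * x.re < h * B + ε * (x.im + h / 2) := by
    intro x
    simp only [ip, v]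
    constructor <;> intro h' <;> linarith
  have hv' : ∀ x : ℂ, ip v (rf I 0 x) < h * B + ε * h / 2 ↔
      h * x.re < h * (B + ε) + -ε * (x.im + h / 2) := by
    intro x
    rw [rf_I]
    simp only [ip, v, Complex.conj_re, Complex.conj_im]
    constructor <;> intro h' <;> linarith
  have hS1 : poly (sq h B δ ε) =
      {x | x ∈ W ∧ ip u x < -(h * δ / 2) ∧ ip v x < h * B + ε * h / 2} := by
    rw [hP1]
    ext x
    simp only [Set.mem_setOf_eq, W, hu, hv]
    tauto
  have hS2 : poly (sq h (B + ε) δ (-ε)) =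
      {x | x ∈ W ∧ ip u x < -(h * δ / 2) ∧ ip v (rf I 0 x) < h * B + ε * h / 2} := by
    rw [hP2]
    ext x
    simp only [Set.mem_setOf_eq, W, hu, hv']
    tauto
  have hWo : IsOpen W :=
    (isOpen_lt continuous_const Complex.continuous_im).inter
      (isOpen_lt Complex.continuous_im continuous_const)
  have hWc : Convex ℝ W := (convex_halfSpace_im_gt _).inter (convex_halfSpace_im_lt _)
  have hWr : ∀ x ∈ W, rf I 0 x ∈ W := by
    intro x hx
    rw [rf_I]
    show -(h / 2) < ((starRingEnd ℂ) x).im ∧ ((starRingEnd ℂ) x).im < h / 2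
    rw [Complex.conj_im]
    exact ⟨by linarith [hx.2], by linarith [hx.1]⟩
  have key := flf I 0 W u v (-(h * δ / 2)) (h * B + ε * h / 2) (by simp) hWo hWc hWr
    (by simpa [ip, u] using hδ) (by simpa [ip, v] using hε)
    (by
      intro x hx
      rw [hu, hv]
      by_contra hcon
      push Not at hcon
      have h1 : 0 < h / 2 - x.im := by linarith [hx.2]
      have h2 : 0 < x.im + h / 2 := by linarith [hx.1]
      nlinarith [mul_pos h1 hB, mul_pos h2 hT, hcon.1, hcon.2])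
    (by
      intro x hx
      rw [hu, hv']
      by_contra hcon
      push Not at hcon
      have h1 : 0 < h / 2 - x.im := by linarith [hx.2]
      have h2 : 0 < x.im + h / 2 := by linarith [hx.1]
      nlinarith [mul_pos h1 hE, mul_pos h2 hD, hcon.1, hcon.2])
    ⟨⟨δ / 2, 0⟩, by
      show -(h / 2) < (0 : ℝ) ∧ (0 : ℝ) < h / 2
      constructor <;> linarith, by
      simp only [ip, u]
      ring⟩
    ⟨⟨B + ε / 2, 0⟩, by
      show -(h / 2) < (0 : ℝ) ∧ (0 : ℝ) < h / 2
      constructor <;> linarith, by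
      simp only [ip, v]
      ring⟩
    (by rw [← hS1]; exact bdd_poly _) (by rw [← hS2]; exact bdd_poly _)
  apply key
  intro k
  rw [← hS1, ← hS2]
  exact heig k

end Pool.Agent.QUD.H3
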