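import Pool.Agent.QUD.StmtsL

set_option autoImplicit false

namespace Pool.Agent.QUD.H3

open MeasureTheory Complex Filter Topology ProbabilityTheory Pool.Agent.H16Iso Pool.Agent.H62T
open Pool.Agent.H16F (Sublin ind)
open Pool.Agent.AEU Pool.Agent.XQ

theorem ht1 (thr : ThrStmt) (prl : PrlStmt) : Ht1Stmt := by
  classical
  intro X L hX hL hbel hhit hnf
  obtain ⟨h, hs, hf, hl, hor⟩ := hhit
  have hpar : ∀ a ∈ touch X h, ∀ a' ∈ touch X h, a ≠ a' → dt a.1 a'.1 ≠ 0 := by
    intro a ha a' ha' hne hdt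
    have hmem : ∀ b ∈ touch X h, b ∈ X := by
      intro b hb
      unfold touch at hb
      exact (Finset.mem_filter.1 hb).1
    obtain ⟨δ, hδ, hd⟩ := (prl X L hX hL hbel).1 a (hmem a ha) a' (hmem a' ha') hne hdt (hnf a a')
    exact hd h hs hf (by rw [hl]; linarith) ⟨ha, ha'⟩
  have h3 : 3 ≤ (touch X h).card := by
    rcases hor with h3 | ⟨a, ha, a', ha', hne, hdt⟩
    · exact h3
    · exact absurd hdt (hpar a ha a' ha' hne)
  have h3' : (touch X h).card = 3 := le_antisymm (thr X L hX hbel h hs hf hl.le) h3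
  refine ⟨touch X h, ?_⟩
  unfold N1
  refine Finset.mem_filter.2 ⟨Finset.mem_powersetCard.2 ⟨?_, h3'⟩, ?_, h, hs, hf, ?_, hl.le⟩
  · unfold touch
    exact Finset.filter_subset _ _
  · intro s hs' t ht hst
    exact hpar s hs' t ht hst
  · exact Finset.Subset.refl _

end Pool.Agent.QUD.H3
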